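import Pool.Agent.H92.HB.Stm2

/-!
# Project HB: generators and relations of the dual of a finite module (`S_REL`)
-/

set_option autoImplicit false
set_option linter.all false

open scoped Classical

namespace Pool.Agent.H22.HB

open Pool.Agent.H92.HB

/-- characters extend -/
theorem ext_char {A B : Type} [AddCommGroup A] [AddCommGroup B] (f : A →+ B)
    (hf : Function.Injective f) (χ : A →+ AddCircle (1 : ℚ)) :
    ∃ χ' : B →+ AddCircle (1 : ℚ), ∀ a, χ' (f a) = χ a := by
  obtain ⟨χ', h⟩ := CharacterModule.dual_surjective_of_injective (R := ℤ) f.toIntLinearMap hf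
    (χ : CharacterModule A)
  refine ⟨χ', fun a => ?_⟩
  exact congrArg (fun c : CharacterModule A => c a) h

/-- torsion of the circle -/
theorem tors_mul {N : ℕ} (hN : 0 < N) (q : AddCircle (1 : ℚ)) (h : N • q = 0) :
    ∃ m : ℤ, q = m • (((1 : ℚ) / N : ℚ) : AddCircle (1 : ℚ)) := by
  obtain ⟨x, rfl⟩ := QuotientAddGroup.mk_surjective q
  have h1 : ((N • x : ℚ) : AddCircle (1 : ℚ)) = 0 := h
  rw [AddCircle.coe_eq_zero_iff] at h1
  obtain ⟨m, hm⟩ := h1
  refine ⟨m, ?_⟩
  have h2 : x = m • ((1 : ℚ) / N) := by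
    have hN' : (N : ℚ) ≠ 0 := by exact_mod_cast hN.ne'
    rw [zsmul_eq_mul, mul_one, nsmul_eq_mul] at hm
    rw [zsmul_eq_mul, hm]
    field_simp
  change (x : AddCircle (1 : ℚ)) = _
  rw [← AddCircle.coe_zsmul, ← h2]

/-- homomorphisms of the circle on the torsion -/
theorem end_int {N : ℕ} (hN : 0 < N) (η : AddCircle (1 : ℚ) →+ AddCircle (1 : ℚ)) :
    ∃ k : ℤ, ∀ q, N • q = 0 → η q = k • q := by
  have h1 : N • (((1 : ℚ) / N : ℚ) : AddCircle (1 : ℚ)) = 0 := by
    rw [← AddCircle.coe_nsmul, AddCircle.coe_eq_zero_iff]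
    refine ⟨1, ?_⟩
    have hN' : (N : ℚ) ≠ 0 := by exact_mod_cast hN.ne'
    rw [nsmul_eq_mul, one_zsmul]
    field_simp
  obtain ⟨k, hk⟩ := tors_mul hN (η (((1 : ℚ) / N : ℚ) : AddCircle (1 : ℚ))) (by
    rw [← map_nsmul, h1, map_zero])
  refine ⟨k, fun q hq => ?_⟩
  obtain ⟨m, rfl⟩ := tors_mul hN q hq
  rw [map_zsmul, hk, smul_comm]

/-- **double annihilators** -/
theorem dann {A : Type} [AddCommGroup A] {N : ℕ} (hN : 0 < N) (hA : ∀ a : A, N • a = 0) {I : Type}
    [Fintype I] (ψ : I → (A →+ AddCircle (1 : ℚ))) (χ : A →+ AddCircle (1 : ℚ))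
    (h : ∀ a, (∀ i, ψ i a = 0) → χ a = 0) : ∃ k : I → ℤ, ∀ a, χ a = ∑ i, k i • ψ i a := by
  let Ψ : A →+ (I → AddCircle (1 : ℚ)) :=
    { toFun := fun a i => ψ i a
      map_zero' := funext fun i => map_zero _
      map_add' := fun a b => funext fun i => map_add _ _ _ }
  obtain ⟨η, hη⟩ := ext_char (QuotientAddGroup.kerLift Ψ) (QuotientAddGroup.kerLift_injective Ψ)
    (QuotientAddGroup.lift Ψ.ker χ fun a ha => h a fun i => congrFun ha i)
  have h1 : ∀ a, η (Ψ a) = χ a := fun a => hη (QuotientAddGroup.mk a)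
  choose k hk using fun i => end_int hN (η.comp (AddMonoidHom.single (fun _ : I => AddCircle (1 : ℚ)) i))
  refine ⟨k, fun a => ?_⟩
  rw [← h1]
  have h2 : Ψ a = ∑ i, Pi.single i (ψ i a) := by
    funext j
    rw [Finset.sum_apply, Finset.sum_eq_single j]
    · rw [Pi.single_eq_same]
      rfl
    · intro i _ hij
      rw [Pi.single_eq_of_ne (Ne.symm hij)]
    · intro hj
      exact absurd (Finset.mem_univ j) hj
  rw [h2, map_sum]
  refine Finset.sum_congr rfl fun i _ => ?_
  refine hk i (ψ i a) ?_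
  rw [← map_nsmul, hA, map_zero]

/-- an injective character of a cyclic group -/
theorem exists_zh {m : ℕ} (hm : 0 < m) : ∃ f : ZMod m →+ AddCircle (1 : ℚ), Function.Injective f := by
  have h1 : (zmultiplesHom (AddCircle (1 : ℚ)) (((1 : ℚ) / m : ℚ) : AddCircle (1 : ℚ))) (m : ℤ) = 0 := by
    rw [zmultiplesHom_apply, ← AddCircle.coe_zsmul, AddCircle.coe_eq_zero_iff]
    refine ⟨1, ?_⟩
    have hN' : (m : ℚ) ≠ 0 := by exact_mod_cast hm.ne'
    rw [one_zsmul, zsmul_eq_mul]
    push_cast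
    field_simp
  refine ⟨ZMod.lift m ⟨_, h1⟩, ?_⟩
  rw [injective_iff_map_eq_zero]
  intro a ha
  obtain ⟨x, rfl⟩ := ZMod.intCast_surjective a
  rw [ZMod.lift_coe] at ha
  change (zmultiplesHom (AddCircle (1 : ℚ)) (((1 : ℚ) / m : ℚ) : AddCircle (1 : ℚ))) x = 0 at ha
  rw [zmultiplesHom_apply, ← AddCircle.coe_zsmul, AddCircle.coe_eq_zero_iff] at ha
  obtain ⟨n, hn⟩ := ha
  have hN' : (m : ℚ) ≠ 0 := by exact_mod_cast hm.ne'
  rw [zsmul_eq_mul, mul_one, zsmul_eq_mul] at hn
  have h2 : (n * m : ℚ) = x := by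
    rw [hn]
    field_simp
  have h3 : n * m = x := by exact_mod_cast h2
  rw [← h3]
  push_cast
  rw [ZMod.natCast_self, mul_zero]

/-- coordinates of a finite group -/
theorem exists_coord (F : Type) [AddCommGroup F] [Finite F] :
    ∃ (n : ℕ) (c : Fin n → ℕ) (y : Fin n → (F →+ AddCircle (1 : ℚ))),
      (∀ i a, c i • y i a = 0) ∧ (∀ a, (∀ i, y i a = 0) → a = 0) ∧ ∏ i, c i = Nat.card F := by
  obtain ⟨ι, hι, m, hm, ⟨e⟩⟩ := AddCommGroup.equiv_directSum_zmod_of_finite' F
  let E : F ≃+ (∀ i, ZMod (m i)) := e.trans (DirectSum.addEquivProd fun i => ZMod (m i))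
  choose f hf using fun i => exists_zh (m := m i) (by have := hm i; omega)
  let σ : Fin (Fintype.card ι) ≃ ι := (Fintype.equivFin ι).symm
  refine ⟨Fintype.card ι, fun i => m (σ i),
    fun i => (f (σ i)).comp ((Pi.evalAddMonoidHom (fun i => ZMod (m i)) (σ i)).comp E.toAddMonoidHom),
    fun i a => ?_, fun a ha => ?_, ?_⟩
  · change m (σ i) • f (σ i) (E a (σ i)) = 0
    rw [← map_nsmul, nsmul_eq_mul, ZMod.natCast_self, zero_mul, map_zero]
  · have h1 : E a = 0 := by
      funext i
      have h2 := ha (σ.symm i)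
      change f (σ (σ.symm i)) (E a (σ (σ.symm i))) = 0 at h2
      rw [Equiv.apply_symm_apply] at h2
      exact hf i (h2.trans (map_zero _).symm)
    exact E.injective (h1.trans (map_zero E).symm)
  · rw [Nat.card_congr E.toEquiv, Nat.card_pi, Equiv.prod_comp σ m]
    exact Finset.prod_congr rfl fun i _ => (Nat.card_zmod _).symm

section

variable {G A : Type} [CommGroup G] [Fintype G] [AddCommGroup A] [DistribMulAction G A]

/-- the functional of the group ring -/
noncomputable def Lf (y : A →+ AddCircle (1 : ℚ)) (a : A) : MonoidAlgebra ℤ G →+ AddCircle (1 : ℚ) where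
  toFun r := ∑ g : G, r.coeff g • y (g • a)
  map_zero' := Finset.sum_eq_zero fun g _ => by
    change (0 : ℤ) • _ = _
    rw [zero_smul]
  map_add' r s := by
    rw [← Finset.sum_add_distrib]
    refine Finset.sum_congr rfl fun g _ => ?_
    change (r.coeff g + s.coeff g) • _ = _
    rw [add_smul]

theorem Lf_single (y : A →+ AddCircle (1 : ℚ)) (a : A) (g : G) (c : ℤ) :
    Lf y a (MonoidAlgebra.single g c) = c • y (g • a) := by
  change ∑ h : G, (Finsupp.single g c) h • y (h • a) = _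
  rw [Finset.sum_eq_single g]
  · rw [Finsupp.single_eq_same]
  · intro h _ hg
    rw [Finsupp.single_eq_of_ne hg, zero_smul]
  · intro hg
    exact absurd (Finset.mem_univ g) hg

/-- the augmentation -/
noncomputable def aug : MonoidAlgebra ℤ G →ₐ[ℤ] ℤ := MonoidAlgebra.lift ℤ ℤ G 1

theorem aug_single (g : G) (c : ℤ) : aug (MonoidAlgebra.single g c) = c := by
  unfold aug
  rw [MonoidAlgebra.lift_single, MonoidHom.one_apply, smul_eq_mul, mul_one]

theorem aug_eq (r : MonoidAlgebra ℤ G) : aug r = ∑ g : G, r.coeff g := by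
  have h1 : ∀ r : MonoidAlgebra ℤ G, (aug : MonoidAlgebra ℤ G →ₐ[ℤ] ℤ) r = ∑ g : G, r.coeff g := by
    intro r
    unfold aug
    rw [MonoidAlgebra.lift_apply, Finsupp.sum_fintype]
    · refine Finset.sum_congr rfl fun g _ => ?_
      rw [MonoidHom.one_apply, smul_eq_mul, mul_one]
    · intro g
      rw [zero_smul]
  exact h1 r

/-- a stable subgroup without fixed elements is zero -/
theorem no_fixed {p : ℕ} (hp : p.Prime) [Finite A] (hG : IsPGroup p G)
    (hk : ∃ k, ∀ a : A, (p ^ k : ℕ) • a = 0) (B : AddSubgroup A) (hB : ∀ g : G, ∀ b ∈ B, g • b ∈ B)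
    (h0 : ∀ b ∈ B, (∀ g : G, g • b = b) → b = 0) : ∀ b ∈ B, b = 0 := by
  haveI : Fact p.Prime := ⟨hp⟩
  intro b hb
  by_contra hne
  letI : MulAction G B :=
    { smul := fun g x => ⟨g • x.1, hB g _ x.2⟩
      one_smul := fun x => Subtype.ext (one_smul G x.1)
      mul_smul := fun g h x => Subtype.ext (mul_smul g h x.1) }
  have hsm : ∀ (g : G) (x : B), ((g • x : B) : A) = g • (x : A) := fun g x => rfl
  have hpB : p ∣ Nat.card B := by
    obtain ⟨k, hk⟩ := hk
    have h1 : addOrderOf (⟨b, hb⟩ : B) ∣ p ^ k := by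
      rw [addOrderOf_dvd_iff_nsmul_eq_zero]
      exact Subtype.ext (hk b)
    obtain ⟨j, -, hj⟩ := (Nat.dvd_prime_pow hp).1 h1
    have h2 : addOrderOf (⟨b, hb⟩ : B) ≠ 1 := by
      rw [Ne, AddMonoid.addOrderOf_eq_one_iff]
      intro h
      exact hne (congrArg Subtype.val h)
    have h3 : j ≠ 0 := by
      rintro rfl
      exact h2 (by rw [hj, pow_zero])
    refine (dvd_pow_self p h3).trans ?_
    rw [← hj]
    exact addOrderOf_dvd_natCard _
  obtain ⟨x, hx, hx0⟩ := hG.exists_fixed_point_of_prime_dvd_card_of_fixed_point B hpB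
    (a := (0 : B)) (fun g => Subtype.ext (smul_zero g))
  refine hx0 (Subtype.ext ?_)
  exact (h0 x.1 x.2 fun g => congrArg Subtype.val (hx g)).symm

end

/-- **Module REL** -/
theorem rel : S_REL := by
  intro p hp G _ _ A _ _ _ hG hk'
  obtain ⟨k, hk⟩ := hk'
  have hN : 0 < p ^ k := pow_pos hp.pos k
  obtain ⟨F, hF⟩ : ∃ F : AddSubgroup A, ∀ a, a ∈ F ↔ ∀ g : G, g • a = a :=
    ⟨{ carrier := {a | ∀ g : G, g • a = a}
       zero_mem' := fun g => smul_zero g
       add_mem' := fun {a b} ha hb g => by rw [smul_add, ha g, hb g]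
       neg_mem' := fun {a} ha g => by rw [smul_neg, ha g] }, fun a => Iff.rfl⟩
  obtain ⟨n, c, y0, hc, hy0, hcard⟩ := exists_coord F
  choose y hy using fun i => ext_char F.subtype Subtype.val_injective (y0 i)
  have hsep : ∀ a, (∀ i, ∀ g : G, y i (g • a) = 0) → a = 0 := by
    let B : AddSubgroup A :=
      { carrier := {a | ∀ i, ∀ g : G, y i (g • a) = 0}
        zero_mem' := fun i g => by rw [smul_zero, map_zero]
        add_mem' := fun {a b} ha hb i g => by rw [smul_add, map_add, ha i g, hb i g, add_zero]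
        neg_mem' := fun {a} ha i g => by rw [smul_neg, map_neg, ha i g, neg_zero] }
    refine no_fixed hp hG ⟨k, hk⟩ B (fun g b hb i h => ?_) fun b hb hfix => ?_
    · rw [← mul_smul]
      exact hb i (h * g)
    · have h1 := hy0 ⟨b, (hF b).2 hfix⟩ fun i => by
        rw [← hy i]
        have h2 := hb i 1
        rw [one_smul] at h2
        exact h2
      exact congrArg Subtype.val h1
  -- the relations
  have hrel : ∀ i, ∃ κ : Fin n × G → ℤ, ∀ a, c i • y i a =
      ∑ q : Fin n × G, κ q • (y q.1 (q.2 • a) - y q.1 a) := by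
    intro i
    obtain ⟨κ, hκ⟩ := dann hN hk
      (fun q : Fin n × G => (y q.1).comp (DistribSMul.toAddMonoidHom A q.2) - y q.1) (c i • y i)
      (fun a ha => by
        have h1 : ∀ g : G, g • a = a := by
          intro g
          refine sub_eq_zero.1 (hsep _ fun j h => ?_)
          have h2 := ha (j, h * g)
          have h3 := ha (j, h)
          change y j ((h * g) • a) - y j a = 0 at h2
          change y j (h • a) - y j a = 0 at h3
          rw [smul_sub, map_sub, ← mul_smul, sub_eq_zero.1 h2, sub_eq_zero.1 h3, sub_self]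
        have h2 := hy i ⟨a, (hF a).2 h1⟩
        change y i a = _ at h2
        change c i • y i a = 0
        rw [h2, hc])
    exact ⟨κ, fun a => hκ a⟩
  choose κ hκ using hrel
  let M : Matrix (Fin n) (Fin n) (MonoidAlgebra ℤ G) := fun i j =>
    (if i = j then MonoidAlgebra.single 1 (c i : ℤ) else 0) -
      ∑ g : G, (MonoidAlgebra.single g (κ i (j, g)) - MonoidAlgebra.single 1 (κ i (j, g)))
  refine ⟨n, y, M, hsep, fun i a => ?_, ?_⟩
  · have h1 : ∀ j, ∑ g : G, (M i j).coeff g • y j (g • a) = Lf (y j) a (M i j) := fun j => rfl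
    rw [Finset.sum_congr rfl fun j _ => h1 j]
    have h2 : ∀ j, Lf (y j) a (M i j) = (if i = j then c i • y j a else 0) -
        ∑ g : G, κ i (j, g) • (y j (g • a) - y j a) := by
      intro j
      simp only [M]
      rw [map_sub, map_sum]
      congr 1
      · split_ifs with hij
        · rw [Lf_single, one_smul, natCast_zsmul]
        · exact map_zero _
      · refine Finset.sum_congr rfl fun g _ => ?_
        rw [map_sub, Lf_single, Lf_single, one_smul, smul_sub]
    rw [Finset.sum_congr rfl fun j _ => h2 j, Finset.sum_sub_distrib, Finset.sum_ite_eq,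
      if_pos (Finset.mem_univ i), hκ i a, Fintype.sum_prod_type, sub_self]
  · rw [← aug_eq]
    have h1 : (aug : MonoidAlgebra ℤ G →ₐ[ℤ] ℤ) M.det =
        ((aug : MonoidAlgebra ℤ G →ₐ[ℤ] ℤ).toRingHom.mapMatrix M).det :=
      RingHom.map_det (aug : MonoidAlgebra ℤ G →ₐ[ℤ] ℤ).toRingHom M
    rw [h1]
    have h2 : (aug : MonoidAlgebra ℤ G →ₐ[ℤ] ℤ).toRingHom.mapMatrix M =
        Matrix.diagonal fun i => (c i : ℤ) := by
      ext i j
      change (aug : MonoidAlgebra ℤ G →ₐ[ℤ] ℤ) (M i j) = _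
      simp only [M]
      rw [map_sub, map_sum, Finset.sum_eq_zero, sub_zero, Matrix.diagonal_apply]
      · split_ifs with hij
        · exact aug_single _ _
        · exact map_zero _
      · intro g _
        rw [map_sub, aug_single, aug_single, sub_self]
    rw [h2, Matrix.det_diagonal]
    have h3 : Nat.card {a : A // ∀ g : G, g • a = a} = Nat.card F :=
      Nat.card_congr (Equiv.subtypeEquivRight fun a => (hF a).symm)
    rw [h3, ← hcard]
    push_cast
    rfl

end Pool.Agent.H22.HB
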